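import Pool.Agent.Helper22.MC.M9

/-!
# MP_2c4f00_al: malcharacteristic free subgroups of rank two

For every `n ≥ 3` the free group of rank `n` contains a malcharacteristic subgroup that is free
of rank two.
-/

namespace Pool.Agent.Results.MP_2c4f00_al.MalcharacteristicF2

/-- The subgroup `M` of `H` is malcharacteristic: every automorphism `δ` of `H` with
`δ(M) ∩ M ≠ 1` is conjugation by an element of `M`. -/
def Malcharacteristic {H : Type} [Group H] (M : Subgroup H) : Prop :=
  ∀ δ : MulAut H, M.map δ.toMonoidHom ⊓ M ≠ ⊥ → ∃ h ∈ M, δ = MulAut.conj h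

/-- Full positive answer to Q1. -/
theorem result (n : ℕ) (hn : 3 ≤ n) : ∃ M : Subgroup (FreeGroup (Fin n)),
    Malcharacteristic M ∧ Nonempty (M ≃* FreeGroup (Fin 2)) := by
  obtain ⟨m, rfl⟩ : ∃ m, n = m + 3 := ⟨n - 3, by omega⟩
  refine ⟨(Pool.Agent.Helper22.MC.iot m).range, ?_, ?_⟩
  · intro δ hδ
    rw [Subgroup.ne_bot_iff_exists_ne_one] at hδ
    obtain ⟨⟨y, hy1, hy2⟩, hne⟩ := hδ
    obtain ⟨x, hx, hxy⟩ := Subgroup.mem_map.1 hy1
    have hxy' : δ x = y := hxy
    refine Pool.Agent.Helper22.MC.main m δ x hx ?_ (by rw [hxy']; exact hy2)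
    rintro rfl
    apply hne
    apply Subtype.ext
    show y = 1
    rw [← hxy', map_one]
  · exact ⟨(MonoidHom.ofInjective (Pool.Agent.Helper22.MC.iot_inj m)).symm⟩

end Pool.Agent.Results.MP_2c4f00_al.MalcharacteristicF2
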